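import Mathlib

set_option maxHeartbeats 400000

namespace Pool.Agent.H.MP_271f8e_al

open Polynomial RingTheory.Sequence

theorem cm (A R : Type) [CommRing A] [IsDomain A] [IsPrincipalIdealRing A] [CommRing R]
    [Algebra A R] [Module.Finite A R] (htf : ∀ a : A, a ≠ 0 → ∀ x : R, a • x = 0 → x = 0)
    (p : Ideal R) [p.IsPrime] : ∃ rs : List (Localization.AtPrime p),
      IsRegular (Localization.AtPrime p) rs ∧
      (rs.length : WithBot ℕ∞) = ringKrullDim (Localization.AtPrime p) := by
  rw [IsLocalization.AtPrime.ringKrullDim_eq_height p]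
  have h0 : ∀ q : Ideal R, q.IsPrime → q.comap (algebraMap A R) = ⊥ → q.height = 0 := by
    intro q hq h
    rw [← nonpos_iff_eq_zero]
    refine (Ideal.height_le_iff (n := 0)).2 fun q' hq' hlt => ?_
    have := Ideal.IsIntegral.comap_lt_comap (R := A) hlt
    rw [h] at this
    exact absurd this not_lt_bot
  by_cases h : p.comap (algebraMap A R) = ⊥
  · exact ⟨[], IsRegular.nil _ _, by rw [h0 p ‹_› h]; rfl⟩
  obtain ⟨a, ha, ha0⟩ := Submodule.exists_mem_ne_zero_of_ne_bot h
  have hn : algebraMap A R a ∈ nonZeroDivisors R :=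
    mem_nonZeroDivisors_iff_left.2 fun x hx => htf a ha0 x (by rw [Algebra.smul_def, hx])
  have hn' := IsLocalization.map_nonZeroDivisors_le p.primeCompl (Localization.AtPrime p)
    ⟨_, hn, rfl⟩
  refine ⟨[algebraMap R _ (algebraMap A R a)], ?_, ?_⟩
  · rw [IsLocalRing.isRegular_iff_isWeaklyRegular_of_subset_maximalIdeal,
      isWeaklyRegular_singleton_iff]
    · exact (isRegular_iff_mem_nonZeroDivisors.2 hn').left.isSMulRegular
    · intro r hr
      rw [List.mem_singleton.1 hr]
      exact (IsLocalization.AtPrime.to_map_mem_maximal_iff _ p _).2 ha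
  · have h1 : p.height = 1 := by
      refine le_antisymm ((Ideal.height_le_iff (n := 1)).2 fun q hq hlt => ?_) ?_
      · rw [h0 q hq]
        · simp
        by_contra hc
        have := Ideal.IsIntegral.comap_lt_comap (R := A) hlt
        have hm := (Ideal.comap_isPrime (algebraMap A R) q).isMaximal hc
        exact this.ne (hm.eq_of_le (Ideal.comap_isPrime (algebraMap A R) p).ne_top this.le)
      · rw [Order.one_le_iff_ne_zero, Ne, Ideal.height_eq_zero_iff]
        exact fun hm => Set.disjoint_left.1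
          (Ideal.disjoint_nonZeroDivisors_of_mem_minimalPrimes hm) ha hn
    rw [h1]; rfl

theorem ncm (S : Type) [CommRing S] (p q : Ideal S) [p.IsPrime] [hq : q.IsPrime] (hlt : q < p)
    (e : S) (h1 : ∀ f ∈ p, f * e = 0) (h2 : ∀ f, f * e = 0 → f ∈ p) :
    ¬ ∃ rs : List (Localization.AtPrime p), IsRegular (Localization.AtPrime p) rs ∧
      (rs.length : WithBot ℕ∞) = ringKrullDim (Localization.AtPrime p) := by
  rintro ⟨rs, hr, hl⟩
  rw [IsLocalization.AtPrime.ringKrullDim_eq_height p] at hl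
  rcases rs with _ | ⟨r, rs⟩
  · have : p.height = 0 := by exact_mod_cast hl.symm
    exact hlt.not_ge ((Ideal.height_eq_zero_iff.1 this).2 ⟨hq, bot_le⟩ hlt.le)
  have h3 := ((isWeaklyRegular_cons_iff _ r rs).1 hr.1).1
  have h4 : r ∈ IsLocalRing.maximalIdeal _ := by
    by_contra hc
    refine hr.2 ?_
    rw [(Ideal.eq_top_of_isUnit_mem (Ideal.ofList (r :: rs))
      (Ideal.subset_span (List.mem_cons_self)) (by simpa using hc)), Submodule.top_smul]
  obtain ⟨⟨x, s⟩, rfl⟩ := IsLocalization.mk'_surjective p.primeCompl r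
  have h5 : x ∈ p := (IsLocalization.AtPrime.mk'_mem_maximal_iff _ p x s).1 h4
  have h6 : algebraMap S (Localization.AtPrime p) e = 0 := by
    refine h3 ?_
    show _ * _ = _ • _
    rw [smul_zero, mul_comm, IsLocalization.mul_mk'_eq_mk'_of_mul, mul_comm, h1 x h5,
      IsLocalization.mk'_zero]
  obtain ⟨m, hm⟩ := (IsLocalization.map_eq_zero_iff p.primeCompl _ e).1 h6
  exact m.2 (h2 _ hm)

theorem wt {k : Type} [Field k] [Infinite k] (n : ℕ) (P Q : k[X])
    (h : ∀ z : k, z ≠ 0 → P.eval z * z ^ n = Q.eval z⁻¹) :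
    ∃ c, P = C c ∧ Q = C c ∧ (n ≠ 0 → c = 0) := by
  have key : ∀ (n : ℕ) (P Q : k[X]), (∀ z : k, z ≠ 0 → P.eval z * z ^ n = Q.eval z⁻¹) →
      P ≠ 0 → P.natDegree + n = 0 := by
    intro n P Q h hP
    have h1 : P * X ^ (n + Q.natDegree) = Q.reverse := by
      refine eq_of_infinite_eval_eq _ _ (((Set.finite_singleton (0 : k)).infinite_compl).mono
        fun z hz => ?_)
      have hz : z ≠ 0 := hz
      haveI := invertibleOfNonzero (inv_ne_zero hz)
      have := eval₂_reverse_mul_pow (RingHom.id k) z⁻¹ Q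
      rw [invOf_eq_inv, inv_inv, eval₂_id, eval₂_id, ← h z hz] at this
      show eval z _ = eval z _
      rw [eval_mul, eval_pow, eval_X, pow_add, ← mul_assoc, ← this, mul_assoc, ← mul_pow,
        inv_mul_cancel₀ hz, one_pow, mul_one]
    have h2 := Q.reverse_natDegree_le
    rw [← h1, natDegree_mul_X_pow _ hP] at h2
    omega
  have h3 : ∀ c, (∀ z : k, z ≠ 0 → c = Q.eval z⁻¹) → Q = C c := fun c hc =>
    eq_of_infinite_eval_eq _ _ (((Set.finite_singleton (0 : k)).infinite_compl).mono
      fun z hz => by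
        have := hc z⁻¹ (inv_ne_zero hz)
        rw [inv_inv] at this
        show eval z _ = eval z _
        rw [eval_C, this])
  by_cases hP : P = 0
  · exact ⟨0, by simp [hP], h3 0 fun z hz => by simpa [hP] using h z hz, fun _ => rfl⟩
  have h4 := key n P Q h hP
  obtain rfl : n = 0 := by omega
  obtain ⟨c, rfl⟩ : ∃ c, P = C c := ⟨_, eq_C_of_natDegree_eq_zero (by omega)⟩
  exact ⟨c, rfl, h3 c fun z hz => by simpa using h z hz, fun h => absurd rfl h⟩

end Pool.Agent.H.MP_271f8e_al
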