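import Mathlib

namespace Pool.Agent.H.MP_271f8e_al

/-- Cohen-Macaulay ring: Noetherian, and depth equals dimension in each localisation -/
def IsCM (R : Type) [CommRing R] : Prop :=
  IsNoetherianRing R ∧ ∀ (p : Ideal R) [p.IsPrime], ∃ rs : List (Localization.AtPrime p),
    RingTheory.Sequence.IsRegular (Localization.AtPrime p) rs ∧
    (rs.length : WithBot ℕ∞) = ringKrullDim (Localization.AtPrime p)

/-- the Borel subgroup of upper triangular matrices -/
def Bor (k : Type) [Field k] : Subgroup (Matrix.SpecialLinearGroup (Fin 2) k) where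
  carrier := {g | g 1 0 = 0}
  one_mem' := rfl
  mul_mem' := by
    intro a b ha hb
    simp only [Set.mem_setOf_eq] at ha hb ⊢
    simp [Matrix.mul_apply, ha, hb]
  inv_mem' := by
    intro a ha
    simp only [Set.mem_setOf_eq] at ha ⊢
    simp [Matrix.SpecialLinearGroup.SL2_inv_expl, ha]

/-- morphisms from a closed subgroup to `R`: generated by constants and matrix entries -/
def Mor {k : Type} [Field k] (H : Subgroup (Matrix.SpecialLinearGroup (Fin 2) k)) (R : Type)
    [CommRing R] [Algebra k R] : Subalgebra k (H → R) :=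
  Algebra.adjoin k ({f | ∃ r, f = fun _ => r} ∪ {f | ∃ i j, f = fun g => algebraMap k R (g.1 i j)})

/-- the induced algebra -/
def ind {k R : Type} [Field k] [CommRing R] [Algebra k R] (ρ : Bor k →* (R ≃ₐ[k] R)) :
    Subalgebra k ((⊤ : Subgroup (Matrix.SpecialLinearGroup (Fin 2) k)) → R) where
  carrier := {f | f ∈ Mor ⊤ R ∧ ∀ g (b : Bor k), f (g * ⟨b.1, trivial⟩) = (ρ b)⁻¹ (f g)}
  mul_mem' := fun hf hg => ⟨mul_mem hf.1 hg.1, fun g b => by
    rw [Pi.mul_apply, Pi.mul_apply, hf.2, hg.2, map_mul]⟩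
  add_mem' := fun hf hg => ⟨add_mem hf.1 hg.1, fun g b => by
    rw [Pi.add_apply, Pi.add_apply, hf.2, hg.2, map_add]⟩
  algebraMap_mem' := fun c => ⟨algebraMap_mem _ c, fun _ b => ((ρ b)⁻¹.commutes c).symm⟩

end Pool.Agent.H.MP_271f8e_al
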