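import Mathlib
import Pool.Agent.H.MP_271f8e_al.A
import Pool.Agent.H.MP_271f8e_al.D

set_option maxHeartbeats 400000

namespace Pool.Agent.H.MP_271f8e_al

open Polynomial TrivSqZeroExt

variable (k : Type) [Field k]

/-- a line glued to a double line -/
def R : Subalgebra k[X] (k[X] × DualNumber k[X]) where
  carrier := {x | x.1.coeff 0 = x.2.fst.coeff 0}
  mul_mem' := by
    intro a b ha hb
    simp only [Set.mem_setOf_eq] at ha hb ⊢
    simp [ha, hb]
  add_mem' := by
    intro a b ha hb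
    simp only [Set.mem_setOf_eq] at ha hb ⊢
    simp [ha, hb]
  algebraMap_mem' := fun p => by simp [algebraMap_eq_inl]

theorem cmR : IsCM (R k) := by
  haveI : Module.Finite k[X] (DualNumber k[X]) := inferInstanceAs (Module.Finite k[X] (k[X] × k[X]))
  haveI : Module.Finite k[X] (R k) :=
    Module.Finite.of_injective (R k).val.toLinearMap Subtype.val_injective
  refine ⟨IsNoetherianRing.of_finite k[X] _, fun p _ => cm k[X] (R k) (fun a ha x hx => ?_) p⟩
  have h := congrArg Subtype.val hx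
  have h1 := congrArg Prod.fst h
  have h2 := congrArg (fun t => t.2.fst) h
  have h3 := congrArg (fun t => t.2.snd) h
  simp only [SetLike.val_smul, Prod.smul_fst, Prod.smul_snd, fst_smul, snd_smul, smul_eq_mul,
    ZeroMemClass.coe_zero, Prod.fst_zero, Prod.snd_zero, fst_zero, snd_zero, mul_eq_zero, ha,
    false_or] at h1 h2 h3
  exact Subtype.ext (Prod.ext h1 (TrivSqZeroExt.ext h2 h3))

variable {k}

theorem Rext {x y : R k} (h1 : x.1.1 = y.1.1) (h2 : x.1.2.fst = y.1.2.fst)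
    (h3 : x.1.2.snd = y.1.2.snd) : x = y :=
  Subtype.ext (Prod.ext h1 (TrivSqZeroExt.ext h2 h3))

/-- scaling map -/
noncomputable def sf (a : k) (x : R k) : R k :=
  ⟨(x.1.1, inl (x.1.2.fst.comp (C a * X)) + inr (x.1.2.snd.comp (C a * X))), by
    have : x.1.1.coeff 0 = x.1.2.fst.coeff 0 := x.2
    show x.1.1.coeff 0 = _
    rw [this, fst_add, fst_inl, fst_inr, add_zero, comp_C_mul_X_coeff, pow_zero, mul_one]⟩

theorem sf1 (a : k) (x : R k) : (sf a x).1.1 = x.1.1 := rfl

theorem sf2 (a : k) (x : R k) : (sf a x).1.2.fst = x.1.2.fst.comp (C a * X) := by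
  show fst (inl _ + inr _) = _
  rw [fst_add, fst_inl, fst_inr, add_zero]

theorem sf3 (a : k) (x : R k) : (sf a x).1.2.snd = x.1.2.snd.comp (C a * X) := by
  show snd (inl _ + inr _) = _
  rw [snd_add, snd_inl, snd_inr, zero_add]

/-- scaling -/
noncomputable def sc (a : k) : R k →ₐ[k] R k where
  toFun := sf a
  map_one' := by refine Rext ?_ ?_ ?_ <;> simp [sf1, sf2, sf3]
  map_mul' x y := by refine Rext ?_ ?_ ?_ <;> simp [sf1, sf2, sf3]
  map_zero' := by refine Rext ?_ ?_ ?_ <;> simp [sf1, sf2, sf3]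
  map_add' x y := by refine Rext ?_ ?_ ?_ <;> simp [sf1, sf2, sf3]
  commutes' c := by refine Rext ?_ ?_ ?_ <;> simp [sf1, sf2, sf3, Algebra.algebraMap_eq_smul_one]

theorem sc1 (a : k) (x : R k) : (sc a x).1.1 = x.1.1 := sf1 a x

theorem sc2 (a : k) (x : R k) (n : ℕ) : (sc a x).1.2.fst.coeff n = x.1.2.fst.coeff n * a ^ n :=
  (congrArg (coeff · n) (sf2 a x)).trans comp_C_mul_X_coeff

theorem sc3 (a : k) (x : R k) (n : ℕ) : (sc a x).1.2.snd.coeff n = x.1.2.snd.coeff n * a ^ n :=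
  (congrArg (coeff · n) (sf3 a x)).trans comp_C_mul_X_coeff

theorem sc_mul (a b : k) (x : R k) : sc a (sc b x) = sc (a * b) x := by
  refine Rext (by rw [sc1, sc1, sc1]) ?_ ?_ <;> ext n
  · rw [sc2, sc2, sc2]; ring
  · rw [sc3, sc3, sc3]; ring

theorem sc_one (x : R k) : sc 1 x = x := by
  refine Rext (sc1 _ _) ?_ ?_ <;> ext n
  · rw [sc2]; ring
  · rw [sc3]; ring

theorem bdet (b : Bor k) : b.1 0 0 * b.1 1 1 = 1 := by
  have h := b.1.det_coe
  rw [Matrix.det_fin_two, (b.2 : b.1.1 1 0 = 0), mul_zero, sub_zero] at h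
  exact h

/-- the action -/
noncomputable def ρ : Bor k →* (R k ≃ₐ[k] R k) :=
  MonoidHom.mk' (fun b => AlgEquiv.ofAlgHom (sc (b.1 0 0)) (sc (b.1 1 1))
    (AlgHom.ext fun x => (sc_mul _ _ x).trans (by rw [bdet, sc_one]; rfl))
    (AlgHom.ext fun x => (sc_mul _ _ x).trans (by rw [mul_comm, bdet, sc_one]; rfl))) (by
    intro a b
    refine AlgEquiv.ext fun x => ?_
    show sc _ x = sc _ (sc _ x)
    rw [sc_mul]
    congr 2
    have : b.1 1 0 = 0 := b.2
    simp [Matrix.mul_apply, this])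

theorem rat (r : R k) : (fun b => ρ b r) ∈ Mor (Bor k) (R k) := by
  have hc : ∀ r : R k, (fun _ => r) ∈ Mor (Bor k) (R k) := fun r =>
    Algebra.subset_adjoin (Or.inl ⟨r, rfl⟩)
  have ha : (fun b : Bor k => algebraMap k (R k) (b.1 0 0)) ∈ Mor (Bor k) (R k) :=
    Algebra.subset_adjoin (Or.inr ⟨0, 0, rfl⟩)
  have hw : ∀ (n : ℕ) (x : R k), (∀ a, sc a x = a ^ n • x) →
      (fun b => ρ b x) ∈ Mor (Bor k) (R k) := by
    intro n x hx
    have : (fun b => ρ b x) = (fun b : Bor k => algebraMap k (R k) (b.1 0 0)) ^ n * fun _ => x := by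
      funext b
      show sc _ x = _
      rw [hx, Algebra.smul_def, map_pow]
      rfl
    rw [this]
    exact mul_mem (pow_mem ha n) (hc x)
  have hadd : ∀ x y : R k, (fun b => ρ b x) ∈ Mor (Bor k) (R k) →
      (fun b => ρ b y) ∈ Mor (Bor k) (R k) → (fun b => ρ b (x + y)) ∈ Mor (Bor k) (R k) := by
    intro x y hx hy
    simp only [map_add]
    exact add_mem hx hy
  let E : k[X] → R k := fun p => ⟨(0, inr p), by simp [R]⟩
  let S : k[X] → R k := fun p => ⟨(C (p.coeff 0), inl p), by simp [R]⟩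
  have hE : ∀ p, (fun b => ρ b (E p)) ∈ Mor (Bor k) (R k) := by
    intro p
    induction p using Polynomial.induction_on' with
    | add p q hp hq =>
      have : E (p + q) = E p + E q := by refine Rext ?_ ?_ ?_ <;> simp [E]
      exact this ▸ hadd _ _ hp hq
    | monomial n c =>
      refine hw n _ fun a => Rext (by simp [E, sc1]) ?_ ?_ <;> ext m
      · simp [sc2, E]
      · rw [sc3]
        simp only [E, snd_inr, SetLike.val_smul_of_tower, Prod.smul_snd, snd_smul, coeff_smul,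
          coeff_monomial, smul_eq_mul]
        split_ifs with h
        · rw [h, mul_comm]
        · simp
  have hS : ∀ p, (fun b => ρ b (S p)) ∈ Mor (Bor k) (R k) := by
    intro p
    induction p using Polynomial.induction_on' with
    | add p q hp hq =>
      have : S (p + q) = S p + S q := by refine Rext ?_ ?_ ?_ <;> simp [S]
      exact this ▸ hadd _ _ hp hq
    | monomial n c =>
      refine hw n _ fun a => Rext ?_ ?_ ?_
      · rcases n with _ | n <;> simp [S, sc1, coeff_monomial]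
      · ext m
        rw [sc2]
        simp only [S, fst_inl, SetLike.val_smul_of_tower, Prod.smul_snd, fst_smul, coeff_smul,
          coeff_monomial, smul_eq_mul]
        split_ifs with h
        · rw [h, mul_comm]
        · simp
      · ext m
        simp [sc3, S]
  let u : R k := ⟨(r.1.1 - C (r.1.1.coeff 0), 0), by simp [R]⟩
  have hu : (fun b => ρ b u) ∈ Mor (Bor k) (R k) := by
    refine hw 0 _ fun a => Rext (by simp [sc1]) ?_ ?_ <;> ext m
    · simp [sc2, u]
    · simp [sc3, u]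
  have : r = u + (S r.1.2.fst + E r.1.2.snd) := by
    have h := r.2
    refine Rext ?_ (by simp [u, S, E]) (by simp [u, S, E])
    simp [u, S, E, show r.1.1.coeff 0 = r.1.2.fst.coeff 0 from h]
  rw [this]
  exact hadd _ _ hu (hadd _ _ (hS _) (hE _))

theorem curve {A : Type} [CommRing A] [Algebra k A]
    (γ : k → (⊤ : Subgroup (Matrix.SpecialLinearGroup (Fin 2) k)))
    (hγ : ∀ i j, ∃ P : k[X], ∀ z, (γ z).1 i j = P.eval z) (l : A →ₗ[k] k)
    {f : (⊤ : Subgroup (Matrix.SpecialLinearGroup (Fin 2) k)) → A} (hf : f ∈ Mor ⊤ A) :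
    ∃ P : k[X], ∀ z, l (f (γ z)) = P.eval z := by
  have h : ∃ P : A[X], ∀ z, f (γ z) = P.eval (algebraMap k A z) := by
    induction hf using Algebra.adjoin_induction with
    | mem f hf =>
      rcases hf with ⟨r, rfl⟩ | ⟨i, j, rfl⟩
      · exact ⟨C r, by simp⟩
      · obtain ⟨P, hP⟩ := hγ i j
        exact ⟨P.map (algebraMap k A), fun z => by
          simp only [hP, eval_map_algebraMap, aeval_algebraMap_apply, coe_aeval_eq_eval]⟩
    | algebraMap c => exact ⟨C (algebraMap k A c), by simp⟩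
    | add f g _ _ hf hg =>
      obtain ⟨P, hP⟩ := hf
      obtain ⟨Q, hQ⟩ := hg
      exact ⟨P + Q, fun z => by simp [hP, hQ]⟩
    | mul f g _ _ hf hg =>
      obtain ⟨P, hP⟩ := hf
      obtain ⟨Q, hQ⟩ := hg
      exact ⟨P * Q, fun z => by simp [hP, hQ]⟩
  obtain ⟨P, hP⟩ := h
  refine ⟨∑ i ∈ Finset.range (P.natDegree + 1), monomial i (l (P.coeff i)), fun z => ?_⟩
  rw [hP, eval_eq_sum_range, map_sum, eval_finsetSum]
  refine Finset.sum_congr rfl fun i _ => ?_
  rw [eval_monomial, mul_comm, ← map_pow, ← Algebra.smul_def, map_smul, smul_eq_mul, mul_comm]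

theorem ρinv (b : Bor k) (x : R k) : (ρ b)⁻¹ x = sc (b.1 1 1) x := rfl

theorem const [Infinite k] (n : ℕ) (f : ind (ρ (k := k))) : ∃ c, (n ≠ 0 → c = 0) ∧
    ∀ g, (f.1 g).1.2.fst.coeff n = c := by
  let l : R k →ₗ[k] k :=
    { toFun := fun x => x.1.2.fst.coeff n
      map_add' := fun x y => by simp
      map_smul' := fun c x => by simp }
  let γ : k → (⊤ : Subgroup (Matrix.SpecialLinearGroup (Fin 2) k)) := fun z =>
    ⟨⟨!![1, 0; z, 1], by simp⟩, trivial⟩
  let δ : k → (⊤ : Subgroup (Matrix.SpecialLinearGroup (Fin 2) k)) := fun z =>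
    ⟨⟨!![z, -1; 1, 0], by simp⟩, trivial⟩
  obtain ⟨P, hP⟩ := curve γ (fun i j => ⟨(!![1, 0; X, 1] : Matrix (Fin 2) (Fin 2) k[X]) i j,
    fun z => by fin_cases i <;> fin_cases j <;> simp [γ]⟩) l f.2.1
  obtain ⟨Q, hQ⟩ := curve δ (fun i j => ⟨(!![X, -1; 1, 0] : Matrix (Fin 2) (Fin 2) k[X]) i j,
    fun z => by fin_cases i <;> fin_cases j <;> simp [δ]⟩) l f.2.1
  have he : ∀ g (b : Bor k), l (f.1 (g * ⟨b.1, trivial⟩)) = l (f.1 g) * b.1 1 1 ^ n := by
    intro g b
    rw [f.2.2, ρinv]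
    exact sc2 _ _ n
  obtain ⟨c, rfl, rfl, hc⟩ := wt n P Q fun z hz => by
    have := he (γ z) ⟨⟨!![z⁻¹, -1; 0, z], by simp [hz]⟩, rfl⟩
    rw [hP] at this
    rw [← hQ]
    refine this.symm.trans (congrArg (fun g => l (f.1 g)) (Subtype.ext (Subtype.ext ?_)))
    ext i j
    fin_cases i <;> fin_cases j <;> simp [γ, δ, Matrix.mul_apply, hz]
  have hcn : ∀ a : k, c * a ^ n = c := fun a => by
    rcases eq_or_ne n 0 with rfl | h
    · simp
    · simp [hc h]
  refine ⟨c, hc, fun g => ?_⟩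
  show l (f.1 g) = c
  by_cases h : g.1 1 0 = 0
  · have := he (γ 0) ⟨g.1, h⟩
    rw [hP, eval_C, hcn] at this
    refine (congrArg (fun g => l (f.1 g)) (Subtype.ext (Subtype.ext ?_))).trans this
    ext i j
    fin_cases i <;> fin_cases j <;> simp [γ, Matrix.mul_apply]
  · have := he (δ (g.1 0 0 / g.1 1 0)) ⟨⟨!![g.1 1 0, g.1 1 1; 0, (g.1 1 0)⁻¹], by simp [h]⟩, rfl⟩
    rw [hQ, eval_C, hcn] at this
    refine (congrArg (fun g => l (f.1 g)) (Subtype.ext (Subtype.ext ?_))).trans this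
    have hd := g.1.det_coe
    rw [Matrix.det_fin_two] at hd
    ext i j
    fin_cases i <;> fin_cases j <;> simp [δ, Matrix.mul_apply, h]
    field_simp
    linear_combination -hd

end Pool.Agent.H.MP_271f8e_al
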