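import Mathlib
import Pool.Agent.H.MP_271f8e_al.B

set_option maxHeartbeats 100000

namespace Pool.Agent.H.MP_271f8e_al

open Polynomial TrivSqZeroExt

variable {k : Type} [Field k]

theorem nInd0 {A : Type} [CommRing A] [Algebra k A] (ρ : Bor k →* (A ≃ₐ[k] A)) (ψ : A →+* k[X])
    (e u : A) (he : ∀ b, (ρ b)⁻¹ e = e) (hu : ∀ b, (ρ b)⁻¹ u = u) (hu0 : ψ u = X)
    (h1 : ∀ f : ind ρ, (ψ (f.1 1)).coeff 0 = 0 → ∀ g, f.1 g * e = 0)
    (h2 : ∀ x, x * e = 0 → (ψ x).coeff 0 = 0) : ¬ IsCM (ind ρ) := by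
  let φ : ind ρ →+* k[X] := ψ.comp ((Pi.evalRingHom _ 1).comp (ind ρ).val.toRingHom)
  have hc : ∀ x : A, (∀ b, (ρ b)⁻¹ x = x) → (fun _ => x) ∈ ind ρ := fun x hx =>
    ⟨Algebra.subset_adjoin (Or.inl ⟨x, rfl⟩), fun _ b => (hx b).symm⟩
  haveI := RingHom.ker_isPrime φ
  haveI := RingHom.ker_isPrime (constantCoeff.comp φ)
  refine fun h => ncm _ (RingHom.ker (constantCoeff.comp φ)) (RingHom.ker φ)
    (lt_of_le_of_ne (fun f hf => ?_) fun hf => ?_) ⟨_, hc e he⟩ (fun f hf => ?_) (fun f hf => ?_)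
    (h.2 _)
  · rw [RingHom.mem_ker] at hf ⊢
    rw [RingHom.comp_apply, hf, map_zero]
  · have : (⟨_, hc u hu⟩ : ind ρ) ∈ RingHom.ker φ := by
      rw [hf]
      show (ψ u).coeff 0 = 0
      rw [hu0, coeff_X_zero]
    exact X_ne_zero (hu0.symm.trans this)
  · exact Subtype.ext (funext (h1 f hf))
  · exact h2 _ (congrFun (congrArg Subtype.val hf) 1)

theorem nInd [Infinite k] : ¬ IsCM (ind (ρ (k := k))) := by
  let e : R k := ⟨(0, inr 1), by simp [R]⟩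
  let u : R k := ⟨(X, 0), by simp [R]⟩
  have he : ∀ a, sc a e = e := fun a => by
    refine Rext (sc1 _ _) ?_ ?_ <;> ext n
    · simp [sc2, e]
    · rcases n with _ | n <;> simp [sc3, e, coeff_one]
  have hu : ∀ a, sc a u = u := fun a => by
    refine Rext (sc1 _ _) ?_ ?_ <;> ext n
    · simp [sc2, u]
    · simp [sc3, u]
  obtain ⟨ψ, hψ0⟩ : ∃ ψ : R k →+* k[X], ∀ x, ψ x = x.1.1 :=
    ⟨(RingHom.fst k[X] (DualNumber k[X])).comp (R k).val.toRingHom, fun x => by simp⟩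
  have hψ : ∀ x, (ψ x).coeff 0 = x.1.2.fst.coeff 0 := fun x => by rw [hψ0]; exact x.2
  have H := nInd0 (ρ (k := k)) ψ e u
  refine H (fun b => (ρinv b e).trans (he _)) (fun b => (ρinv b u).trans (hu _)) ?_
    (fun f hf g => ?_) fun x hx => ?_
  · rw [hψ0]
  · have : (f.1 g).1.2.fst = 0 := by
      ext n
      obtain ⟨c, h1, h2⟩ := const n f
      rcases eq_or_ne n 0 with rfl | hn
      · rw [h2, ← h2 1, ← hψ, hf, coeff_zero]
      · rw [h2, h1 hn, coeff_zero]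
    generalize f.1 g = y at this
    refine Rext ?_ ?_ ?_ <;> simp [e, this]
  · have h2 := congrArg (fun t => t.1.2.snd) hx
    rw [hψ]
    simp [e] at h2
    rw [h2, coeff_zero]

end Pool.Agent.H.MP_271f8e_al
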